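import Pool.Agent.LibHZ6Z.Defs

/-!
# Row P1: degrees and values of the denominators (MEDIUM, 35 min)

Plan: `natDegree_prod_le`, every factor of `ZP` has degree `≤ 2` (`compute_degree`), `natDegree_taylor`.
`ZP ≠ 0`: every factor is `≠ 0` (`1 ≤ M`: the coefficient of `X^2` of the factor is `-M^2`, or evaluate at
`y = 0`: `q t (q t + M q n) > 0`); evaluation at a real `0 ≤ y ≤ q n`: every factor is positive (`q, t ≥ 1`).
`GP ≠ 0`: `Finset.prod_ne_zero_iff`, `taylor_eq_zero`.  `GP_eval_pos`: `taylor_eval`.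
`ZP_of_GP`: `GP(y) ≠ 0` gives `ZP(y + l q) ≠ 0` for `l ≤ S`.
`factor_ne`: `ZP(y) ≠ 0` gives that all factors are `≠ 0` at `y`.
-/

namespace HZ6Z

open Finset Polynomial HZ89

variable {q n T S : ℕ} {Ms : Finset ℕ}

theorem ZP_natDegree : (ZP q n Ms T).natDegree ≤ 2 * tau Ms T := by
  unfold ZP tau
  refine (natDegree_prod_le _ _).trans ?_
  have h0 : ∀ M ∈ Ms, (∏ t ∈ Icc 1 T, ((C ((q : ℝ) * t) + C (M : ℝ) * X) *
      (C ((q : ℝ) * t) + C (M : ℝ) * (C ((q : ℝ) * n) - X)) : ℝ[X])).natDegree ≤ 2 * T := by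
    intro M _
    refine (natDegree_prod_le _ _).trans ?_
    have h : ∀ t ∈ Icc 1 T, ((C ((q : ℝ) * t) + C (M : ℝ) * X) *
        (C ((q : ℝ) * t) + C (M : ℝ) * (C ((q : ℝ) * n) - X)) : ℝ[X]).natDegree ≤ 2 := by
      intro t _
      compute_degree
    refine (Finset.sum_le_sum h).trans ?_
    rw [Finset.sum_const, Nat.card_Icc, smul_eq_mul, Nat.add_sub_cancel]
    exact le_of_eq (by ring)
  refine (Finset.sum_le_sum h0).trans ?_
  rw [Finset.sum_const, smul_eq_mul]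
  exact le_of_eq (by ring)

theorem ZP_eval_pos (hq : 1 ≤ q) {y : ℝ} (h0 : 0 ≤ y) (h1 : y ≤ (q : ℝ) * n) :
    0 < (ZP q n Ms T).eval y := by
  unfold ZP
  rw [eval_prod]
  refine Finset.prod_pos fun M _ => ?_
  rw [eval_prod]
  refine Finset.prod_pos fun t ht => ?_
  rw [mem_Icc] at ht
  have hq' : (0 : ℝ) < q := by exact_mod_cast hq
  have ht' : (0 : ℝ) < t := by exact_mod_cast ht.1
  have hM' : (0 : ℝ) ≤ M := Nat.cast_nonneg M
  simp only [eval_mul, eval_add, eval_sub, eval_C, eval_X]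
  have h2 : 0 ≤ (q : ℝ) * n - y := by linarith
  positivity

theorem ZP_ne_zero (hq : 1 ≤ q) : ZP q n Ms T ≠ 0 := by
  intro h
  have h1 := ZP_eval_pos (q := q) (n := n) (Ms := Ms) (T := T) hq (y := 0) le_rfl (by positivity)
  rw [h, eval_zero] at h1
  exact lt_irrefl _ h1

theorem GP_ne_zero (hq : 1 ≤ q) : GP q n Ms T S ≠ 0 := by
  unfold GP
  rw [Finset.prod_ne_zero_iff]
  intro l _
  refine pow_ne_zero _ ?_
  rw [Ne, taylor_eq_zero]
  exact ZP_ne_zero hq

theorem GP_natDegree : (GP q n Ms T S).natDegree ≤ 6 * tau Ms T * (S + 1) := by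
  unfold GP
  refine (natDegree_prod_le _ _).trans ?_
  have h : ∀ l ∈ range (S + 1), (taylor ((l : ℝ) * q) (ZP q n Ms T) ^ 3).natDegree ≤ 6 * tau Ms T := by
    intro l _
    refine natDegree_pow_le.trans ?_
    rw [natDegree_taylor]
    have := ZP_natDegree (q := q) (n := n) (Ms := Ms) (T := T)
    omega
  refine (Finset.sum_le_sum h).trans ?_
  rw [Finset.sum_const, card_range, smul_eq_mul]
  exact le_of_eq (by ring)

theorem GP_eval_pos (hq : 1 ≤ q) {y : ℝ} (h0 : 0 ≤ y) (h1 : y + S * q ≤ (q : ℝ) * n) :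
    0 < (GP q n Ms T S).eval y := by
  unfold GP
  rw [eval_prod]
  refine Finset.prod_pos fun l hl => ?_
  rw [mem_range] at hl
  rw [eval_pow, taylor_eval]
  have hq' : (0 : ℝ) < q := by exact_mod_cast hq
  have hl' : (l : ℝ) ≤ S := by exact_mod_cast (by omega : l ≤ S)
  refine pow_pos (ZP_eval_pos hq ?_ ?_) 3
  · positivity
  · have h2 : (l : ℝ) * q ≤ S * q := mul_le_mul_of_nonneg_right hl' hq'.le
    linarith

theorem ZP_of_GP {y : ℝ} (h : (GP q n Ms T S).eval y ≠ 0) {l : ℕ} (hl : l ≤ S) :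
    (ZP q n Ms T).eval (y + l * q) ≠ 0 := by
  unfold GP at h
  rw [eval_prod, Finset.prod_ne_zero_iff] at h
  have h1 := h l (mem_range.2 (by omega))
  rw [eval_pow, taylor_eval] at h1
  intro h2
  apply h1
  rw [h2]
  norm_num

end HZ6Z
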