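import Pool.Agent.LibHZ6Z.Defs
import Pool.Agent.LibHZ6Z.P1

/-!
# Row P2: `G * rho` is a polynomial (MEDIUM, 45 min)

Plan: `rho q n M (y + l q)` is a sum over `a < M` of `1/u(y)^3 - 1/v(y)^3` with
`v(y) = M (y + l q) + q (a + 1)`: the value at `y + l q` of the factor `C (q t) + C M * X` of `ZP`, `t = a + 1`
(`t ≤ M ≤ M T`, since `1 ≤ T`), and `u(y) = M (q n - q - y - l q) + q (a+1) = q t + M (q n - (y + (l+1) q))`,
`t = a + 1`: the value at `y + (l + 1) q` of the other factor.  So the polynomials `u`, `v` (as polynomials in `X`: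
`taylor`s of the factors) satisfy `v ^ 3 ∣ taylor (l q) ZP ^ 3 ∣ GP` and `u ^ 3 ∣ taylor ((l+1) q) ZP ^ 3 ∣ GP`
(`Finset.dvd_prod_of_mem`, `pow_dvd_pow_of_dvd`, `map_dvd (taylorAlgHom _)`; `l + 1 ≤ S`).  If `GP = v^3 * w` then
`w.natDegree ≤ GP.natDegree` (`GP ≠ 0`; `natDegree_le_of_dvd`), and `w(y) = GP(y) / v(y)^3` if `GP(y) ≠ 0`.
Take the sum of these polynomials (`natDegree_sum_le_of_forall_le`, `natDegree_sub_le`).
-/

namespace HZ6Z

open Finset Polynomial HZ89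

variable {q n T S : ℕ} {Ms : Finset ℕ}

theorem p2_div {G v : ℝ[X]} (hG : G ≠ 0) (h : v ^ 3 ∣ G) :
    ∃ w : ℝ[X], w.natDegree ≤ G.natDegree ∧
      ∀ y : ℝ, G.eval y ≠ 0 → w.eval y = G.eval y * (1 / v.eval y ^ 3) := by
  obtain ⟨w, hw⟩ := h
  refine ⟨w, natDegree_le_of_dvd ⟨v ^ 3, by rw [hw]; ring⟩ hG, fun y hy => ?_⟩
  rw [hw, eval_mul, eval_pow] at hy ⊢
  have h1 : v.eval y ^ 3 ≠ 0 := left_ne_zero_of_mul hy
  have h2 : v.eval y ≠ 0 := fun h => h1 (by rw [h]; norm_num)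
  field_simp

theorem p2_dvd {M t l : ℕ} (hM : M ∈ Ms) (ht : t ∈ Icc 1 T) (hl : l ∈ range (S + 1))
    {A : ℝ[X]} (hA : A ∣ (C ((q : ℝ) * t) + C (M : ℝ) * X) *
      (C ((q : ℝ) * t) + C (M : ℝ) * (C ((q : ℝ) * n) - X))) :
    taylor ((l : ℝ) * q) A ^ 3 ∣ GP q n Ms T S := by
  have h1 : A ∣ ZP q n Ms T := by
    refine hA.trans ?_
    unfold ZP
    exact (Finset.dvd_prod_of_mem (fun t : ℕ => (C ((q : ℝ) * t) + C (M : ℝ) * X) *
      (C ((q : ℝ) * t) + C (M : ℝ) * (C ((q : ℝ) * n) - X))) ht).trans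
      (Finset.dvd_prod_of_mem (fun M : ℕ => ∏ t ∈ Icc 1 T,
        ((C ((q : ℝ) * t) + C (M : ℝ) * X) *
          (C ((q : ℝ) * t) + C (M : ℝ) * (C ((q : ℝ) * n) - X)))) hM)
  have h2 : taylor ((l : ℝ) * q) A ∣ taylor ((l : ℝ) * q) (ZP q n Ms T) := by
    obtain ⟨B, hB⟩ := h1
    exact ⟨taylor ((l : ℝ) * q) B, by rw [hB, taylor_mul]⟩
  refine (pow_dvd_pow_of_dvd h2 3).trans ?_
  unfold GP
  exact Finset.dvd_prod_of_mem (fun l : ℕ => taylor ((l : ℝ) * q) (ZP q n Ms T) ^ 3) hl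

theorem rho_poly (hq : 1 ≤ q) {M l : ℕ} (hM : M ∈ Ms) (hMT : M ≤ T) (hl : l < S) :
    ∃ r : ℝ[X], r.natDegree ≤ (GP q n Ms T S).natDegree ∧
      ∀ y : ℝ, (GP q n Ms T S).eval y ≠ 0 →
        r.eval y = (GP q n Ms T S).eval y * rho q n M (y + l * q) := by
  have hG : GP q n Ms T S ≠ 0 := GP_ne_zero hq
  have key : ∀ a : ℕ, ∃ r : ℝ[X], a < M → (r.natDegree ≤ (GP q n Ms T S).natDegree ∧
      ∀ y : ℝ, (GP q n Ms T S).eval y ≠ 0 → r.eval y = (GP q n Ms T S).eval y *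
        (1 / ((M : ℝ) * ((q : ℝ) * n - q - (y + l * q)) + q * (a + 1)) ^ 3 -
          1 / ((M : ℝ) * (y + l * q) + q * (a + 1)) ^ 3)) := by
    intro a
    by_cases ha : a < M
    · have ht : a + 1 ∈ Icc 1 T := by
        rw [mem_Icc]
        exact ⟨by omega, by omega⟩
      obtain ⟨w1, d1, e1⟩ := p2_div hG (p2_dvd (q := q) (n := n) (S := S) (l := l + 1) hM ht
        (mem_range.2 (by omega)) (Dvd.intro_left _ rfl))
      obtain ⟨w2, d2, e2⟩ := p2_div hG (p2_dvd (q := q) (n := n) (S := S) (l := l) hM ht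
        (mem_range.2 (by omega)) (Dvd.intro _ rfl))
      refine ⟨w1 - w2, fun _ => ⟨(natDegree_sub_le _ _).trans (max_le d1 d2), fun y hy => ?_⟩⟩
      rw [eval_sub, e1 y hy, e2 y hy, taylor_eval, taylor_eval]
      simp only [eval_mul, eval_add, eval_sub, eval_C, eval_X]
      have c1 : (q : ℝ) * ((a + 1 : ℕ) : ℝ) + (M : ℝ) * ((q : ℝ) * n - (y + ((l + 1 : ℕ) : ℝ) * q)) =
          (M : ℝ) * ((q : ℝ) * n - q - (y + l * q)) + q * (a + 1) := by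
        push_cast; ring
      have c2 : (q : ℝ) * ((a + 1 : ℕ) : ℝ) + (M : ℝ) * (y + (l : ℝ) * q) =
          (M : ℝ) * (y + l * q) + q * (a + 1) := by
        push_cast; ring
      rw [c1, c2]
      ring
    · exact ⟨0, fun h => absurd h ha⟩
  choose r hr using key
  refine ⟨∑ a ∈ range M, r a, ?_, fun y hy => ?_⟩
  · exact natDegree_sum_le_of_forall_le _ _ fun a ha => (hr a (mem_range.1 ha)).1
  · rw [eval_finsetSum, rho, Finset.mul_sum]
    exact Finset.sum_congr rfl fun a ha => (hr a (mem_range.1 ha)).2 y hy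

end HZ6Z
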