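import Pool.Agent.LibHZ6Z.Defs
import Pool.Agent.LibHZ6Z.P1

/-!
# Row P3: the principal parts over the common denominator (SHORT/MEDIUM, 30 min)

Plan: `p = (∏ l' ∈ (range (S + 1)).erase l, taylor (l' q) ZP ^ 3) * taylor (l q) Fh`.
`Finset.mul_prod_erase`, `taylor_eval`, `ZP_of_GP`; degree: `natDegree_prod_le`, `natDegree_taylor`, `ZP_natDegree`
(`S` factors of degree `≤ 6 tau`).
-/

namespace HZ6Z

open Finset Polynomial HZ89

variable {q n T S : ℕ} {Ms : Finset ℕ}

theorem F_poly (Fh : ℝ[X]) {l : ℕ} (hl : l ≤ S) :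
    ∃ p : ℝ[X], p.natDegree ≤ 6 * tau Ms T * S + Fh.natDegree ∧
      ∀ y : ℝ, (GP q n Ms T S).eval y ≠ 0 →
        p.eval y = (GP q n Ms T S).eval y *
          (Fh.eval (y + l * q) / (ZP q n Ms T).eval (y + l * q) ^ 3) := by
  have hmem : l ∈ range (S + 1) := mem_range.2 (by omega)
  refine ⟨(∏ l' ∈ (range (S + 1)).erase l, taylor ((l' : ℝ) * q) (ZP q n Ms T) ^ 3) *
    taylor ((l : ℝ) * q) Fh, ?_, fun y hy => ?_⟩
  · refine natDegree_mul_le.trans ?_
    rw [natDegree_taylor]
    refine Nat.add_le_add_right ?_ _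
    refine (natDegree_prod_le _ _).trans ?_
    have h : ∀ l' ∈ (range (S + 1)).erase l,
        (taylor ((l' : ℝ) * q) (ZP q n Ms T) ^ 3).natDegree ≤ 6 * tau Ms T := by
      intro l' _
      refine natDegree_pow_le.trans ?_
      rw [natDegree_taylor]
      have := ZP_natDegree (q := q) (n := n) (Ms := Ms) (T := T)
      omega
    refine (Finset.sum_le_sum h).trans ?_
    rw [Finset.sum_const, card_erase_of_mem hmem, card_range, smul_eq_mul, Nat.add_sub_cancel]
    exact le_of_eq (by ring)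
  · have hZ := ZP_of_GP hy hl
    have h1 : (GP q n Ms T S).eval y = (ZP q n Ms T).eval (y + l * q) ^ 3 *
        (∏ l' ∈ (range (S + 1)).erase l, taylor ((l' : ℝ) * q) (ZP q n Ms T) ^ 3).eval y := by
      unfold GP
      rw [← Finset.mul_prod_erase _ _ hmem, eval_mul, eval_pow, taylor_eval]
    rw [h1, eval_mul, taylor_eval]
    generalize (∏ l' ∈ (range (S + 1)).erase l, taylor ((l' : ℝ) * q) (ZP q n Ms T) ^ 3).eval y = P
    generalize (ZP q n Ms T).eval (y + l * q) = Z at hZ
    generalize Fh.eval (y + l * q) = W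
    field_simp

end HZ6Z
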