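import Pool.Agent.LibHZ6Z.Defs

/-!
# Row R1: the sums psM on a class (SHORT/MEDIUM, 30 min)

Plan: `psM_add`: `M (j + q) = M j + M q`; induction on `a ≤ M` with `HZ89.ps_add` (for `n := M n`, `j := M j + q a`,
`M j + q a + q ≤ M (j + q) < q (M n)`; for the strict inequality use `j + q < q n`, `1 ≤ M`):
`ps q (M n) (M j + q a) = ps q (M n) (M j) + ∑_{a' < a} (1/(M j + q a' + q)^3 - 1/(q M n - M j - q a')^3)`;
the second terms of `rho` are these first terms, the first terms of `rho` are `1/(M (q n - q - j) + q (a+1))^3 =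
1/(M q n - M j - q (M - 1 - a))^3`: reflect the sum (`Finset.sum_range_reflect`).
`psM_shift`: induction on `l`.
-/

namespace HZ6Z

open Finset Polynomial HZ89

theorem r1_step {q n M j : ℕ} (hq : 1 ≤ q) (hM : 1 ≤ M) (hj : j + q < q * n) (a : ℕ) (ha : a ≤ M) :
    ps q (M * n) (M * j + q * a) = ps q (M * n) (M * j) +
      ∑ a' ∈ range a, (1 / ((M : ℝ) * j + q * (a' + 1)) ^ 3 -
        1 / ((q : ℝ) * (M * n) - M * j - q * a') ^ 3) := by
  induction a with
  | zero => simp
  | succ a ih =>
    have h1 : M * j + q * a + q < q * (M * n) := by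
      calc M * j + q * a + q = M * j + q * (a + 1) := by ring
        _ ≤ M * j + q * M := Nat.add_le_add_left (Nat.mul_le_mul_left q ha) _
        _ = M * (j + q) := by ring
        _ < M * (q * n) := Nat.mul_lt_mul_of_pos_left hj hM
        _ = q * (M * n) := by ring
    have h2 := ps_add hq h1
    have e1 : M * j + q * (a + 1) = M * j + q * a + q := by ring
    rw [e1, h2, ih (by omega), Finset.sum_range_succ]
    push_cast
    ring

theorem psM_add {q n M j : ℕ} (hq : 1 ≤ q) (hM : 1 ≤ M) (hj : j + q < q * n) :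
    psM q n M (j + q) = psM q n M j - rho q n M j := by
  unfold psM rho
  have h1 := r1_step hq hM hj M le_rfl
  have e1 : M * j + q * M = M * (j + q) := by ring
  rw [e1] at h1
  rw [h1, Finset.sum_sub_distrib, Finset.sum_sub_distrib]
  have h2 : ∑ a ∈ range M, 1 / ((q : ℝ) * (M * n) - M * j - q * a) ^ 3 =
      ∑ a ∈ range M, 1 / ((M : ℝ) * ((q : ℝ) * n - q - j) + q * (a + 1)) ^ 3 := by
    rw [← Finset.sum_range_reflect]
    refine Finset.sum_congr rfl fun a ha => ?_
    rw [mem_range] at ha
    have h3 : ((M - 1 - a : ℕ) : ℝ) = (M : ℝ) - 1 - a := by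
      rw [Nat.cast_sub (by omega), Nat.cast_sub hM, Nat.cast_one]
    rw [h3]
    congr 2
    ring
  rw [h2]
  ring

theorem psM_shift {q n M j : ℕ} (hq : 1 ≤ q) (hM : 1 ≤ M) (l : ℕ) (hj : j + q * l < q * n) :
    psM q n M (j + q * l) = psM q n M j - ∑ k ∈ range l, rho q n M ((j : ℝ) + k * q) := by
  induction l with
  | zero => simp
  | succ l ih =>
    have e1 : j + q * (l + 1) = j + q * l + q := by ring
    have h1 : j + q * l + q < q * n := by omega
    have h2 := psM_add (j := j + q * l) hq hM h1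
    rw [e1, h2, ih (by omega), Finset.sum_range_succ]
    have e2 : (((j + q * l : ℕ)) : ℝ) = (j : ℝ) + l * q := by push_cast; ring
    rw [e2]
    ring

end HZ6Z
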