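import Pool.Agent.LibHZ6Z.Defs

/-!
# Row R2: the functions `rho` are not summable (STRONG, 60 min; compare HZ89.no_rational in LibHZ89/Z2.lean)

Plan: suppose some `c M ≠ 0`, let `m` be the LARGEST such `M` (`1 ≤ m`).  For `ε` put `y_k = -q/m + q k + ε`, `k : ℤ`
(or `k` shifted to `ℕ`: `y_k = -q/m - q A + q k + ε`, `0 ≤ k < A + B`), with `A, B` natural numbers so large that
`D` has no zero `≤ -q/m - q A` and no zero `≥ -q/m + q B` (`HZ89.z2_far`), and `A ≥ 1`, `B ≥ 1`.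
For all small `ε ≠ 0` all the `D(y_k)`, `E(y_k)` are non-zero (`HZ89.z2_poly`, finitely many `k`), so the sum
of the hypotheses over the window telescopes (`Finset.sum_range_sub`):
`∑_k ∑_M c M * rho M (y_k) = a(y_last)/D(y_last) - a(y_first)/D(y_first)`.
Multiply by `ε^3` and let `ε → 0` in `𝓝[≠] 0`.  Right side → `0` (continuity at the two ends, `D ≠ 0` there).
Left side: each term is `± 1/(α ± M ε)^3` with `α = q (M (n - 1 - k') + M/m + a + 1)` (sign `-M ε`) and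
`α = q (M k' - M/m + a + 1)` (sign `+M ε`), `k'` the integer `k - A`; `ε^3 / (α ± M ε)^3 → 0` if `α ≠ 0`, and
`ε^3/(-M ε)^3 = -1/M^3`, `-ε^3/(M ε)^3 = -1/M^3` if `α = 0` (cf. `HZ89.z2_lim1`, `HZ89.z2_lim2`).  So the limit is
`-∑_M c M / M^3 * (number of (a, k, type) with α = 0)`.  For `M < m` there are none (`M/m` is not an integer), for
`M > m` `c M = 0`, for `M = m` there is at least one: second type, `a = 0`, `k' = 0` (`-m/m + 0 + 1 = 0`).  So the
limit is `≠ 0`, a contradiction (`tendsto_nhds_unique`).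
-/

namespace HZ6Z

open Finset Polynomial HZ89 Filter Topology

theorem r2_lim1 {M : ℝ} (hM : M ≠ 0) (d : ℝ) :
    Tendsto (fun e : ℝ => e ^ 3 * (1 / (d - M * e) ^ 3)) (𝓝[≠] 0)
      (𝓝 (if d = 0 then -(1 / M ^ 3) else 0)) := by
  by_cases hd : d = 0
  · rw [if_pos hd]
    refine (tendsto_const_nhds).congr' ?_
    filter_upwards [self_mem_nhdsWithin] with e he
    have he' : e ≠ 0 := he
    subst hd
    rw [zero_sub, neg_pow, mul_pow]
    have h3 : ((-1 : ℝ)) ^ 3 = -1 := by norm_num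
    rw [h3]
    field_simp
  · rw [if_neg hd]
    have hc : ContinuousAt (fun e : ℝ => e ^ 3 * (1 / (d - M * e) ^ 3)) 0 := by
      apply ContinuousAt.mul (by fun_prop)
      exact ContinuousAt.div (by fun_prop) (by fun_prop) (by simpa using hd)
    have h := hc.tendsto.mono_left (nhdsWithin_le_nhds (s := {0}ᶜ))
    simpa using h

theorem r2_lim2 {M : ℝ} (hM : M ≠ 0) (d : ℝ) :
    Tendsto (fun e : ℝ => e ^ 3 * (1 / (d + M * e) ^ 3)) (𝓝[≠] 0)
      (𝓝 (if d = 0 then 1 / M ^ 3 else 0)) := by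
  by_cases hd : d = 0
  · rw [if_pos hd]
    refine (tendsto_const_nhds).congr' ?_
    filter_upwards [self_mem_nhdsWithin] with e he
    have he' : e ≠ 0 := he
    subst hd
    rw [zero_add, mul_pow]
    field_simp
  · rw [if_neg hd]
    have hc : ContinuousAt (fun e : ℝ => e ^ 3 * (1 / (d + M * e) ^ 3)) 0 := by
      apply ContinuousAt.mul (by fun_prop)
      exact ContinuousAt.div (by fun_prop) (by fun_prop) (by simpa using hd)
    have h := hc.tendsto.mono_left (nhdsWithin_le_nhds (s := {0}ᶜ))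
    simpa using h

/-- the limit of `e ^ 3 * rho (y + e)` -/
noncomputable def r2_W (q n M : ℕ) (y : ℝ) : ℝ :=
  ∑ a ∈ range M, ((if (M : ℝ) * ((q : ℝ) * n - q - y) + q * (a + 1) = 0 then
      -(1 / (M : ℝ) ^ 3) else 0) -
    (if (M : ℝ) * y + q * (a + 1) = 0 then 1 / (M : ℝ) ^ 3 else 0))

theorem r2_limrho (q n : ℕ) {M : ℕ} (hM : 1 ≤ M) (y : ℝ) :
    Tendsto (fun e : ℝ => e ^ 3 * rho q n M (y + e)) (𝓝[≠] 0) (𝓝 (r2_W q n M y)) := by
  have hM0 : (M : ℝ) ≠ 0 := by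
    have : (1 : ℝ) ≤ M := by exact_mod_cast hM
    positivity
  have h1 : (fun e : ℝ => e ^ 3 * rho q n M (y + e)) = fun e => ∑ a ∈ range M,
      (e ^ 3 * (1 / ((M : ℝ) * ((q : ℝ) * n - q - y) + q * (a + 1) - M * e) ^ 3) -
        e ^ 3 * (1 / ((M : ℝ) * y + q * (a + 1) + M * e) ^ 3)) := by
    funext e
    rw [rho, mul_sum]
    refine sum_congr rfl fun a _ => ?_
    have e1 : (M : ℝ) * ((q : ℝ) * n - q - (y + e)) + q * (a + 1) =
        (M : ℝ) * ((q : ℝ) * n - q - y) + q * (a + 1) - M * e := by ring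
    have e2 : (M : ℝ) * (y + e) + q * (a + 1) = (M : ℝ) * y + q * (a + 1) + M * e := by ring
    rw [mul_sub, e1, e2]
  rw [h1]
  apply tendsto_finsetSum
  intro a _
  exact (r2_lim1 hM0 _).sub (r2_lim2 hM0 _)

theorem r2_term_nonpos (p₁ p₂ : Prop) [Decidable p₁] [Decidable p₂] (M : ℕ) :
    ((if p₁ then -(1 / (M : ℝ) ^ 3) else 0) - (if p₂ then 1 / (M : ℝ) ^ 3 else 0)) ≤ 0 := by
  have h : (0 : ℝ) ≤ 1 / (M : ℝ) ^ 3 := by positivity
  split_ifs <;> linarith

theorem r2_W_nonpos (q n M : ℕ) (y : ℝ) : r2_W q n M y ≤ 0 :=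
  sum_nonpos fun _ _ => r2_term_nonpos _ _ M

theorem r2_W_neg (q n : ℕ) {M : ℕ} (hM : 1 ≤ M) (y : ℝ) (hy : (M : ℝ) * y + q = 0) :
    r2_W q n M y < 0 := by
  have hM1 : (1 : ℝ) ≤ M := by exact_mod_cast hM
  have hpos : (0 : ℝ) < 1 / (M : ℝ) ^ 3 := by positivity
  unfold r2_W
  apply sum_neg' (fun _ _ => r2_term_nonpos _ _ M)
  refine ⟨0, mem_range.2 hM, ?_⟩
  have h1 : (M : ℝ) * y + q * (((0 : ℕ) : ℝ) + 1) = 0 := by
    rw [Nat.cast_zero, zero_add, mul_one]
    exact hy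
  rw [if_pos h1]
  split_ifs <;> linarith

theorem r2_W_zero {q n M m A k : ℕ} (hq : 1 ≤ q) (hM : 1 ≤ M) (hMm : M < m) (y : ℝ)
    (hy : y = -((q : ℝ) / m) - q * A + q * k) : r2_W q n M y = 0 := by
  have hq0 : (q : ℝ) ≠ 0 := by
    have : (1 : ℝ) ≤ q := by exact_mod_cast hq
    positivity
  have hm0 : (m : ℝ) ≠ 0 := by
    have : (1 : ℝ) ≤ m := by exact_mod_cast (le_trans hM hMm.le)
    positivity
  have hnd : ¬ (m : ℤ) ∣ (M : ℤ) := by
    intro h1
    have h2 := Int.le_of_dvd (by omega) h1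
    omega
  unfold r2_W
  apply sum_eq_zero
  intro a _
  rw [if_neg, if_neg, sub_zero]
  · intro h1
    apply hnd
    have h2 : (q : ℝ) * ((M : ℝ) * m * (k - A) - M + m * (a + 1)) = 0 := by
      have h3 : (q : ℝ) * ((M : ℝ) * m * (k - A) - M + m * (a + 1)) =
          m * ((M : ℝ) * y + q * (a + 1)) := by
        rw [hy]
        field_simp
        ring
      rw [h3, h1, mul_zero]
    have h4 := (mul_eq_zero.1 h2).resolve_left hq0
    have h5 : ((M : ℤ) * m * (k - A) - M + m * (a + 1) : ℤ) = 0 := by exact_mod_cast h4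
    exact ⟨(M : ℤ) * (k - A) + (a + 1), by linear_combination -h5⟩
  · intro h1
    apply hnd
    have h2 : (q : ℝ) * ((M : ℝ) * m * (n - 1 + A - k) + M + m * (a + 1)) = 0 := by
      have h3 : (q : ℝ) * ((M : ℝ) * m * (n - 1 + A - k) + M + m * (a + 1)) =
          m * ((M : ℝ) * ((q : ℝ) * n - q - y) + q * (a + 1)) := by
        rw [hy]
        field_simp
        ring
      rw [h3, h1, mul_zero]
    have h4 := (mul_eq_zero.1 h2).resolve_left hq0
    have h5 : ((M : ℤ) * m * (n - 1 + A - k) + M + m * (a + 1) : ℤ) = 0 := by exact_mod_cast h4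
    exact ⟨-((M : ℤ) * (n - 1 + A - k)) - (a + 1), by linear_combination h5⟩

theorem no_rational3 {q n M0 : ℕ} (hq : 1 ≤ q) (c : ℕ → ℝ) {a D E : ℝ[X]} (hD : D ≠ 0)
    (hE : E ≠ 0)
    (h : ∀ y : ℝ, D.eval y ≠ 0 → D.eval (y + q) ≠ 0 → E.eval y ≠ 0 → E.eval (y + q) ≠ 0 →
      ∑ M ∈ Icc 1 M0, c M * rho q n M y =
        a.eval (y + q) / D.eval (y + q) - a.eval y / D.eval y) :
    ∀ M ∈ Icc 1 M0, c M = 0 := by
  by_contra hcon
  push Not at hcon
  obtain ⟨M₁, hM₁, hcM₁⟩ := hcon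
  -- the largest one
  obtain ⟨m, hm, hmax⟩ := Finset.exists_max_image ((Icc 1 M0).filter fun M => c M ≠ 0) id
    ⟨M₁, mem_filter.2 ⟨hM₁, hcM₁⟩⟩
  obtain ⟨hm1, hcm⟩ := mem_filter.1 hm
  obtain ⟨hm1, hm2⟩ := mem_Icc.1 hm1
  have hq1 : (1:ℝ) ≤ q := by exact_mod_cast hq
  have hq0 : (0:ℝ) < q := by linarith
  have hmr : (1:ℝ) ≤ m := by exact_mod_cast hm1
  have hm0 : (m : ℝ) ≠ 0 := by positivity
  obtain ⟨R, hR⟩ := z2_far hD
  obtain ⟨A, hA⟩ := exists_nat_ge R
  have hA0 : (0:ℝ) ≤ A := Nat.cast_nonneg A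
  obtain ⟨B, hB⟩ : ∃ B : ℕ, B = A + 1 := ⟨_, rfl⟩
  obtain ⟨y0, hy0⟩ : ∃ y0 : ℝ, y0 = -((q:ℝ) / m) - q * A := ⟨_, rfl⟩
  obtain ⟨K, hK⟩ : ∃ K : ℕ, K = A + B := ⟨_, rfl⟩
  have hqm0 : 0 < (q : ℝ) / m := by positivity
  have hqm1 : (q : ℝ) / m ≤ q := div_le_self hq0.le hmr
  have hend : y0 + q * (K:ℝ) = q * A + (q - q / m) := by
    rw [hy0, hK, hB]
    push_cast
    ring
  have hAq : (A : ℝ) ≤ q * A := by nlinarith
  have hD0 : D.eval y0 ≠ 0 := by
    intro h0
    have h1 := hR y0 h0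
    rw [hy0, abs_of_nonpos (by nlinarith)] at h1
    linarith
  have hD1 : D.eval (y0 + q * (K:ℝ)) ≠ 0 := by
    intro h0
    have h1 := hR _ h0
    rw [hend, abs_of_nonneg (by nlinarith)] at h1
    linarith
  obtain ⟨F, hF⟩ : ∃ F : ℝ → ℝ, ∀ y, F y = a.eval y / D.eval y :=
    ⟨fun y => a.eval y / D.eval y, fun y => rfl⟩
  -- the telescoping sum
  have htel : ∀ᶠ e : ℝ in 𝓝[≠] 0, e ^ 3 * (F (y0 + q * (K:ℝ) + e) - F (y0 + e)) =
      ∑ i ∈ range K, ∑ M ∈ Icc 1 M0, c M * (e ^ 3 * rho q n M (y0 + q * (i:ℝ) + e)) := by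
    have h1 : ∀ᶠ e : ℝ in 𝓝[≠] 0, ∀ i ∈ range (K + 1), D.eval (y0 + q * (i:ℝ) + e) ≠ 0 :=
      (Filter.eventually_all_finset _).2 fun i _ => z2_poly hD _
    have h2 : ∀ᶠ e : ℝ in 𝓝[≠] 0, ∀ i ∈ range (K + 1), E.eval (y0 + q * (i:ℝ) + e) ≠ 0 :=
      (Filter.eventually_all_finset _).2 fun i _ => z2_poly hE _
    filter_upwards [h1, h2] with e h1 h2
    have hs := Finset.sum_range_sub (fun i : ℕ => F (y0 + q * (i:ℝ) + e)) K
    simp only [Nat.cast_zero, mul_zero, add_zero] at hs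
    rw [← hs, mul_sum]
    refine sum_congr rfl fun i hi => ?_
    have hiK : i < K := mem_range.mp hi
    have hm : i ∈ range (K + 1) := mem_range.mpr (by omega)
    have hm' : i + 1 ∈ range (K + 1) := mem_range.mpr (by omega)
    have e1 : y0 + q * ((i + 1 : ℕ):ℝ) + e = (y0 + q * (i:ℝ) + e) + q := by
      push_cast
      ring
    have h4 := h1 (i + 1) hm'
    have h5 := h2 (i + 1) hm'
    rw [e1] at h4 h5
    have h6 := h (y0 + q * (i:ℝ) + e) (h1 i hm) h4 (h2 i hm) h5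
    rw [e1, hF, hF, ← h6, mul_sum]
    exact sum_congr rfl fun M _ => by ring
  -- the limits
  have hlim1 : Tendsto (fun e : ℝ => e ^ 3 * (F (y0 + q * (K:ℝ) + e) - F (y0 + e))) (𝓝[≠] 0)
      (𝓝 0) := by
    have hc : ContinuousAt (fun e : ℝ => e ^ 3 * (F (y0 + q * (K:ℝ) + e) - F (y0 + e))) 0 := by
      simp only [hF]
      apply ContinuousAt.mul (by fun_prop)
      apply ContinuousAt.sub
      · refine ContinuousAt.div ?_ ?_ (by simpa using hD1)
        · exact (a.continuous.comp (continuous_const.add continuous_id)).continuousAt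
        · exact (D.continuous.comp (continuous_const.add continuous_id)).continuousAt
      · refine ContinuousAt.div ?_ ?_ (by simpa using hD0)
        · exact (a.continuous.comp (continuous_const.add continuous_id)).continuousAt
        · exact (D.continuous.comp (continuous_const.add continuous_id)).continuousAt
    have h := hc.tendsto.mono_left (nhdsWithin_le_nhds (s := {0}ᶜ))
    simpa using h
  have hlim2 : Tendsto (fun e : ℝ => ∑ i ∈ range K, ∑ M ∈ Icc 1 M0,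
      c M * (e ^ 3 * rho q n M (y0 + q * (i:ℝ) + e))) (𝓝[≠] 0)
      (𝓝 (∑ i ∈ range K, ∑ M ∈ Icc 1 M0, c M * r2_W q n M (y0 + q * (i:ℝ)))) := by
    apply tendsto_finsetSum
    intro i _
    apply tendsto_finsetSum
    intro M hM
    exact (r2_limrho q n (mem_Icc.1 hM).1 _).const_mul _
  have huniq := tendsto_nhds_unique (hlim1.congr' htel) hlim2
  -- the other terms vanish
  have hone : ∀ i ∈ range K, ∑ M ∈ Icc 1 M0, c M * r2_W q n M (y0 + q * (i:ℝ)) =
      c m * r2_W q n m (y0 + q * (i:ℝ)) := by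
    intro i _
    apply sum_eq_single m
    · intro M hM hne
      obtain ⟨hM1, hM2⟩ := mem_Icc.1 hM
      by_cases hlt : M < m
      · rw [r2_W_zero hq hM1 hlt (y0 + q * (i:ℝ)) (by rw [hy0]), mul_zero]
      · have hcM : c M = 0 := by
          by_contra hcM
          have h1 := hmax M (mem_filter.2 ⟨hM, hcM⟩)
          simp only [id] at h1
          omega
        rw [hcM, zero_mul]
    · intro hne
      exact absurd (mem_Icc.2 ⟨hm1, hm2⟩) hne
  rw [sum_congr rfl hone, ← mul_sum] at huniq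
  have hneg : ∑ i ∈ range K, r2_W q n m (y0 + q * (i:ℝ)) < 0 := by
    apply sum_neg' (fun _ _ => r2_W_nonpos _ _ _ _)
    refine ⟨A, mem_range.2 (by omega), ?_⟩
    apply r2_W_neg q n hm1
    rw [hy0]
    field_simp
    ring
  rcases mul_eq_zero.1 huniq.symm with h1 | h1
  · exact hcm h1
  · exact hneg.ne h1

end HZ6Z
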