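import Pool.Agent.LibHZ6Z.D2
import Pool.Agent.LibHZ6Z.R1
import Pool.Agent.LibHZ6Z.R2
import Pool.Agent.LibHZ6Z.P1
import Pool.Agent.LibHZ6Z.P2
import Pool.Agent.LibHZ6Z.P3

/-!
# The zero estimate for a space of polynomials (assembly)
-/

namespace HZ6Z

open Finset Polynomial HZ89

theorem comp_omP_eq_zero {q n : ℕ} (hq : 1 ≤ q) {p : ℝ[X]} (h : p.comp (omP q n) = 0) : p = 0 := by
  rw [Polynomial.comp_eq_zero_iff] at h
  rcases h with h | ⟨_, h2⟩
  · exact h
  · exfalso
    have h3 := congrArg (fun p => Polynomial.coeff p 2) h2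
    have hq' : (q : ℝ) ≠ 0 := by positivity
    simp only [omP, mul_sub, coeff_sub, coeff_C_succ] at h3
    rw [mul_assoc, coeff_C_mul, coeff_X_mul, coeff_C_succ, mul_assoc, coeff_C_mul, coeff_X_mul,
      coeff_X_one] at h3
    simp [hq'] at h3

theorem zeroW {q n T d K S : ℕ} {I Ms : Finset ℕ} (hq : 1 ≤ q) (hMs : ∀ M ∈ Ms, 1 ≤ M ∧ M ≤ T)
    (hI : ∀ x ∈ I, 1 ≤ x ∧ 2 * x < q) (W : Submodule ℝ ℝ[X]) [Module.Finite ℝ W]
    (hS : Module.finrank ℝ W = S) (hW : ∀ p ∈ W, p.natDegree < K)
    (u : ℕ → ℝ[X]) (hu : ∀ M ∈ Ms, u M ∈ W) (w : ℕ → ℝ[X]) (hw : ∀ x ∈ I, w x ∈ W)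
    (F : ℝ[X]) (hF : F.natDegree ≤ 6 * tau Ms T + 2 * d)
    (hrel : ∀ j ∈ P q n I, F.eval (j : ℝ) / (ZP q n Ms T).eval (j : ℝ) ^ 3 -
      ∑ M ∈ Ms, psM q n M j * (u M).eval (om q n j) + (w (j % q)).eval (om q n j) = 0)
    (hcount : 6 * tau Ms T * (S + 1) + 2 * max d K + 2 * (S * K) < I.card * (n - S)) :
    ∀ M ∈ Ms, u M = 0 := by
  classical
  have hq0 : (0 : ℝ) < q := by exact_mod_cast hq
  set bas := Module.finBasisOfFinrankEq ℝ W hS with hbas
  set f : Fin S → ℝ[X] := fun i => ((bas i : W) : ℝ[X]).comp (omP q n) with hf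
  -- a general expansion
  have hexp : ∀ p : W, ((p : ℝ[X])).comp (omP q n) = ∑ i, C (bas.repr p i) * f i := by
    intro p
    have h := congrArg (fun x : W => ((x : ℝ[X])).comp (omP q n)) (bas.sum_repr p)
    simp only [Submodule.coe_sum, Submodule.coe_smul] at h
    rw [← h, Polynomial.sum_comp]
    refine sum_congr rfl fun i _ => ?_
    rw [smul_comp, smul_eq_C_mul]
  have hlin : LinearIndependent ℝ f := by
    rw [Fintype.linearIndependent_iff]
    intro g hg
    have h1 : (((∑ i, g i • bas i : W) : W) : ℝ[X]).comp (omP q n) = 0 := by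
      rw [← hg]
      simp only [Submodule.coe_sum, Submodule.coe_smul]
      rw [Polynomial.sum_comp]
      refine sum_congr rfl fun i _ => ?_
      rw [smul_comp]
    have h2 := comp_omP_eq_zero hq h1
    have h3 : (∑ i, g i • bas i : W) = 0 := by
      apply Subtype.ext
      exact h2
    exact Fintype.linearIndependent_iff.1 bas.linearIndependent g h3
  have hfe : ∀ i, (f i).natDegree ≤ 2 * (K - 1) := by
    intro i
    simp only [hf]
    refine natDegree_comp_le.trans ?_
    have h1 := hW _ (bas i).2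
    have h2 := omP_natDegree (q := q) (n := n)
    calc _ ≤ (K - 1) * 2 := Nat.mul_le_mul (by omega) h2
      _ = 2 * (K - 1) := mul_comm _ _
  have hG := GP_ne_zero (q := q) (n := n) (Ms := Ms) (T := T) (S := S) hq
  choose! Fp hFp1 hFp2 using fun (l : ℕ) (hl : l ≤ S) =>
    F_poly (q := q) (n := n) (Ms := Ms) (T := T) (S := S) F hl
  choose! rp hrp1 hrp2 using fun (M : ℕ) (hM : M ∈ Ms) (l : ℕ) (hl : l < S) =>
    rho_poly (q := q) (n := n) (Ms := Ms) (T := T) (S := S) hq hM (hMs M hM).2 hl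
  set A : ℕ → Fin S → ℝ := fun M i => if h : M ∈ Ms then bas.repr ⟨u M, hu M h⟩ i else 0
    with hA
  have hAu : ∀ M ∈ Ms, (u M).comp (omP q n) = ∑ i, C (A M i) * f i := by
    intro M hM
    have := hexp ⟨u M, hu M hM⟩
    rw [this]
    refine sum_congr rfl fun i _ => ?_
    simp only [hA, dif_pos hM]
  have hAe : ∀ M ∈ Ms, ∀ y : ℝ, (u M).eval ((omP q n).eval y) =
      ∑ i, A M i * (f i).eval y := by
    intro M hM y
    rw [← eval_comp, hAu M hM, eval_finsetSum]
    refine sum_congr rfl fun i _ => ?_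
    rw [eval_mul, eval_C]
  have hGd := GP_natDegree (q := q) (n := n) (Ms := Ms) (T := T) (S := S)
  set J : Finset ℝ := (P q (n - S) I).image (fun j : ℕ => (j : ℝ)) with hJdef
  have hJcard : J.card = I.card * (n - S) := by
    rw [hJdef, card_image_of_injective _ Nat.cast_injective, card_P hq hI]
  have hSn : ∀ j ∈ P q (n - S) I, j + q * S < q * n := by
    intro j hj
    have h1 := (mem_P hI hj).2.1
    have h2 : S ≤ n := by
      by_contra hcon
      have : n - S = 0 := by omega
      rw [this, mul_zero] at h1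
      omega
    calc j + q * S < q * (n - S) + q * S := by omega
      _ = q * n := by rw [← mul_add, Nat.sub_add_cancel h2]
  have key := zc (ι := ℕ) (h := (q : ℝ)) hq0 f hlin (e := 2 * (K - 1))
    (D0 := 6 * tau Ms T * (S + 1) + 2 * max d K) hfe hG (Ms) A (fun M => rho q n M)
    (fun y => F.eval y / (ZP q n Ms T).eval y ^ 3) Fp rp (fun l hl y hy => hFp2 l hl y hy)
    (fun M hM l hl y hy => hrp2 M hM l hl y hy)
    (fun l hl => by
      have h1 := hFp1 l hl
      have h2 : d ≤ max d K := le_max_left _ _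
      have h3 : 6 * tau Ms T * (S + 1) = 6 * tau Ms T * S + 6 * tau Ms T := by ring
      omega)
    (fun M hM l hl => by
      have h1 := hrp1 M hM l hl
      have h2 : K ≤ max d K := le_max_right _ _
      omega)
    J
    (fun y hy => by
      obtain ⟨j, hj, rfl⟩ := mem_image.1 hy
      refine (GP_eval_pos hq (Nat.cast_nonneg j) ?_).ne'
      have := hSn j hj
      have h2 : ((j + q * S : ℕ) : ℝ) ≤ ((q * n : ℕ) : ℝ) := by exact_mod_cast this.le
      push_cast at h2
      linarith)
    (fun y hy => by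
      obtain ⟨j, hj, rfl⟩ := mem_image.1 hy
      obtain ⟨hj1, hjL, hjI, hj2, hjx⟩ := mem_P hI hj
      set p : W := ⟨w (j % q), hw _ hjI⟩ -
        ∑ M ∈ Ms.attach, psM q n M j • (⟨u M, hu M M.2⟩ : W) with hp
      refine ⟨fun i => bas.repr p i, fun l hl => ?_⟩
      have hlt : j + q * l < q * n := by
        have := hSn j hj
        have h2 : q * l ≤ q * S := Nat.mul_le_mul_left _ hl
        omega
      have hmem : j + q * l ∈ P q n I := by
        unfold P
        rw [mem_filter, mem_range]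
        exact ⟨hlt, by rw [Nat.add_mul_mod_self_left]; exact hjI⟩
      have h1 := hrel _ hmem
      have hcast : ((j + q * l : ℕ) : ℝ) = (j : ℝ) + l * q := by push_cast; ring
      have hom : om q n (j + q * l) = (omP q n).eval ((j : ℝ) + l * q) := by
        rw [← hcast, omP_eval hq]
      rw [hom, hcast, Nat.add_mul_mod_self_left] at h1
      have h2 : ∑ i, bas.repr p i * (f i).eval ((j : ℝ) + l * q) =
          (w (j % q)).eval ((omP q n).eval ((j : ℝ) + l * q)) -
            ∑ M ∈ Ms, psM q n M j * (u M).eval ((omP q n).eval ((j : ℝ) + l * q)) := by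
        have h3 := congrArg (fun x => Polynomial.eval ((j : ℝ) + l * q) x) (hexp p)
        simp only [eval_finsetSum, eval_mul, eval_C, eval_comp] at h3
        rw [← h3, hp]
        simp only [Submodule.coe_sub, Submodule.coe_sum, Submodule.coe_smul, eval_sub,
          eval_finsetSum, eval_smul, smul_eq_mul]
        congr 1
        exact sum_attach Ms fun M => psM q n M j *
          (u M).eval ((omP q n).eval ((j : ℝ) + l * q))
      rw [h2]
      have h4 : ∑ M ∈ Ms, (∑ k ∈ range l, rho q n M ((j : ℝ) + k * q)) *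
          (∑ i, A M i * (f i).eval ((j : ℝ) + l * q)) =
          ∑ M ∈ Ms, psM q n M j * (u M).eval ((omP q n).eval ((j : ℝ) + l * q)) -
          ∑ M ∈ Ms, psM q n M (j + q * l) *
            (u M).eval ((omP q n).eval ((j : ℝ) + l * q)) := by
        rw [← sum_sub_distrib]
        refine sum_congr rfl fun M hM => ?_
        rw [← hAe M hM, psM_shift hq (hMs M hM).1 l hlt]
        ring
      rw [h4]
      linarith)
    (by
      rw [hJcard]
      have h1 : S * (2 * (K - 1)) ≤ 2 * (S * K) := by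
        calc S * (2 * (K - 1)) ≤ S * (2 * K) := Nat.mul_le_mul_left _ (by omega)
          _ = 2 * (S * K) := by ring
      omega)
  intro M hM
  have hA0 : ∀ i, A M i = 0 := by
    intro i
    obtain ⟨a, D, hD, h⟩ := key i
    -- extend by zero
    have hsub : Ms ⊆ Icc 1 T := fun M hM => mem_Icc.2 (hMs M hM)
    have h0 : ∀ M ∈ Icc 1 T, M ∉ Ms → A M i = 0 := by
      intro M _ hM
      simp only [hA, dif_neg hM]
    refine no_rational3 (n := n) (M0 := T) (a := a) hq (fun M => A M i) hD hG (fun y h1 h2 h3 h4 => ?_) M (hsub hM)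
    rw [← h y h1 h2 h3 h4]
    exact (sum_subset hsub fun M hM1 hM2 => by rw [h0 M hM1 hM2, zero_mul]).symm
  have h1 : (u M).comp (omP q n) = 0 := by
    rw [hAu M hM]
    exact sum_eq_zero fun i _ => by rw [hA0 i, C_0, zero_mul]
  exact comp_omP_eq_zero hq h1

end HZ6Z
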