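import Pool.Agent.LibHZ6Z.C1

/-!
# Row C2: Casorati's lemma for polynomials (ONLY MATHLIB + C1, MEDIUM/STRONG, 40 min)

Plan: induction on `S`, generalizing `f`.  `S = 0`: `c = 0` by `Subsingleton`.
`S + 1`: write `c` as `Fin.snoc c' x` (or use `Fin.sum_univ_castSucc`), `x = c (Fin.last S)`, `g = f ∘ Fin.castSucc`
(linearly independent: `hf.comp _ (Fin.castSucc_injective _)`).
* If `x = 0`: the equations `l < S` for `g` and the induction hypothesis give `c' = 0`, so `c = 0`.
* If `x ≠ 0`: equation `l` is `E l : ∑ i, c' i * taylor (l h) (g i) + x * taylor (l h) (f last) = 0`.  For `l < S`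
  apply `taylor h` to `E l` (`taylor_mul`, `taylor_taylor`, `map_sum`), multiply by `x`, subtract `taylor h x`
  times `E (l + 1)`:
  `∑ i, (x * taylor h (c' i) - taylor h x * c' i) * taylor (l h) (taylor h (g i)) = 0` for all `l < S`
  (`taylor (l h + h) = taylor (l h) ∘ taylor h`).  The family `taylor h ∘ g` is linearly independent
  (`LinearIndependent.map'` with the injective linear map `taylor h`, `taylor_injective`), so by the induction
  hypothesis `x * taylor h (c' i) = taylor h x * c' i`, and by `ratio_const` `c' i = C (λ i) * x`.
  Then `E 0` is `x * (∑ i, C (λ i) * g i + f last) = 0` (`taylor_zero`), so `∑ λ i • g i + f last = 0`, which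
  contradicts the linear independence of `f` (`Fintype.linearIndependent_iff` with the coefficients
  `Fin.snoc λ 1`).
-/

namespace HZ6Z

open Finset Polynomial

theorem casorati {h : ℝ} (hh : 0 < h) : ∀ (S : ℕ) (f : Fin S → ℝ[X]), LinearIndependent ℝ f →
    ∀ c : Fin S → ℝ[X], (∀ l < S, ∑ i, c i * taylor ((l : ℝ) * h) (f i) = 0) → c = 0 := by
  intro S
  induction S with
  | zero =>
    intro f _ c _
    exact Subsingleton.elim _ _
  | succ S ih =>
    intro f hf c hc
    have hg : LinearIndependent ℝ (fun i : Fin S => f i.castSucc) :=
      hf.comp _ (Fin.castSucc_injective S)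
    have hE : ∀ l < S + 1, ∑ i : Fin S, c i.castSucc * taylor ((l : ℝ) * h) (f i.castSucc) +
        c (Fin.last S) * taylor ((l : ℝ) * h) (f (Fin.last S)) = 0 := by
      intro l hl
      rw [← Fin.sum_univ_castSucc (fun i => c i * taylor ((l : ℝ) * h) (f i))]
      exact hc l hl
    by_cases hx : c (Fin.last S) = 0
    · have h1 : (fun i : Fin S => c i.castSucc) = 0 := by
        apply ih (fun i : Fin S => f i.castSucc) hg
        intro l hl
        have h2 := hE l (by omega)
        rw [hx, zero_mul, add_zero] at h2
        exact h2
      funext i
      refine Fin.lastCases hx (fun i => ?_) i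
      exact congrFun h1 i
    · exfalso
      have hg' : LinearIndependent ℝ (fun i : Fin S => taylor h (f i.castSucc)) := by
        have h1 := hg.map' (taylor h) (LinearMap.ker_eq_bot.2 (taylor_injective h))
        exact h1
      have h2 : (fun i : Fin S => c (Fin.last S) * taylor h (c i.castSucc) -
          taylor h (c (Fin.last S)) * c i.castSucc) = 0 := by
        apply ih (fun i : Fin S => taylor h (f i.castSucc)) hg'
        intro l hl
        have e1 := congrArg (taylor h) (hE l (by omega))
        have e2 := hE (l + 1) (by omega)
        have hh' : ∀ p : ℝ[X], taylor h (taylor ((l : ℝ) * h) p) =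
            taylor (((l + 1 : ℕ) : ℝ) * h) p := by
          intro p
          rw [taylor_taylor]
          congr 1
          congr 1
          push_cast
          ring
        have hh'' : ∀ p : ℝ[X], taylor ((l : ℝ) * h) (taylor h p) =
            taylor (((l + 1 : ℕ) : ℝ) * h) p := by
          intro p
          rw [taylor_taylor]
          congr 1
          congr 1
          push_cast
          ring
        rw [map_add, map_sum, map_zero, taylor_mul, hh'] at e1
        simp only [taylor_mul, hh'] at e1
        simp only [hh'']
        have e3 : ∑ i : Fin S, (c (Fin.last S) * taylor h (c i.castSucc) -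
            taylor h (c (Fin.last S)) * c i.castSucc) *
              taylor (((l + 1 : ℕ) : ℝ) * h) (f i.castSucc) =
            c (Fin.last S) * ∑ i : Fin S, taylor h (c i.castSucc) *
              taylor (((l + 1 : ℕ) : ℝ) * h) (f i.castSucc) -
            taylor h (c (Fin.last S)) * ∑ i : Fin S, c i.castSucc *
              taylor (((l + 1 : ℕ) : ℝ) * h) (f i.castSucc) := by
          rw [Finset.mul_sum, Finset.mul_sum, ← Finset.sum_sub_distrib]
          exact Finset.sum_congr rfl fun i _ => by ring
        rw [e3]
        linear_combination c (Fin.last S) * e1 - taylor h (c (Fin.last S)) * e2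
      have h3 : ∀ i : Fin S, ∃ a : ℝ, c i.castSucc = C a * c (Fin.last S) := by
        intro i
        apply ratio_const hh hx
        have h4 := congrFun h2 i
        simp only [Pi.zero_apply] at h4
        linear_combination h4
      choose a ha using h3
      have e0 := hE 0 (by omega)
      simp only [Nat.cast_zero, zero_mul, taylor_zero] at e0
      have e1 : c (Fin.last S) * (∑ i : Fin S, a i • f i.castSucc + f (Fin.last S)) = 0 := by
        rw [← e0, mul_add, Finset.mul_sum]
        congr 1
        refine Finset.sum_congr rfl fun i _ => ?_
        rw [ha i, smul_eq_C_mul]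
        ring
      have e2 := (mul_eq_zero.1 e1).resolve_left hx
      have h5 := Fintype.linearIndependent_iff.1 hf (Fin.snoc a 1 : Fin (S + 1) → ℝ) (by
        rw [Fin.sum_univ_castSucc]
        simp only [Fin.snoc_castSucc, Fin.snoc_last, one_smul]
        exact e2) (Fin.last S)
      simp only [Fin.snoc_last] at h5
      exact one_ne_zero h5

end HZ6Z
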