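import Mathlib

/-!
# Row D1: a determinant of polynomials with many zeros (ONLY MATHLIB, MEDIUM, 30 min)

Plan: `m.det.natDegree ≤ D0 + S * e`: `Matrix.det_apply` (or `Matrix.det_apply'`), `natDegree_sum_le_of_forall_le`,
for each permutation `σ` the product `∏ i, m (σ i) i` has degree at most the sum of the degrees
(`natDegree_prod_le`), `Fin.prod_univ_succ`/`Fin.sum_univ_succ` separates the column `0`; the sign does not
change the degree.
Zeros: for `y ∈ J` the matrix `m.map (eval y)` has a non-zero kernel vector, so its determinant is `0`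
(`Matrix.exists_mulVec_eq_zero_iff`), and `(m.det).eval y` is its determinant (`RingHom.map_det` with
`evalRingHom y`, `RingHom.mapMatrix_apply`).  So `J ⊆ m.det.roots.toFinset` if `m.det ≠ 0`, and
`card J ≤ natDegree` (`Polynomial.card_roots'`, or `Polynomial.eq_zero_of_natDegree_lt_card_of_eval_eq_zero'`).
-/

namespace HZ6Z

open Finset Polynomial

theorem det_zero {S : ℕ} (m : Matrix (Fin (S + 1)) (Fin (S + 1)) ℝ[X]) {D0 e : ℕ}
    (h0 : ∀ l, (m l 0).natDegree ≤ D0) (h1 : ∀ l (i : Fin S), (m l i.succ).natDegree ≤ e)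
    (J : Finset ℝ)
    (hJ : ∀ y ∈ J, ∃ v : Fin (S + 1) → ℝ, v ≠ 0 ∧ ∀ l, ∑ i, (m l i).eval y * v i = 0)
    (hc : D0 + S * e < J.card) : m.det = 0 := by
  classical
  have hdeg : m.det.natDegree ≤ D0 + S * e := by
    rw [Matrix.det_apply]
    refine natDegree_sum_le_of_forall_le _ _ fun σ _ => ?_
    refine (natDegree_smul_le _ _).trans ?_
    refine (natDegree_prod_le _ _).trans ?_
    rw [Fin.sum_univ_succ]
    refine Nat.add_le_add (h0 _) ?_
    refine (Finset.sum_le_sum fun i _ => h1 _ i).trans ?_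
    simp
  refine eq_zero_of_natDegree_lt_card_of_eval_eq_zero' _ J ?_ (lt_of_le_of_lt hdeg hc)
  intro y hy
  obtain ⟨v, hv, hv0⟩ := hJ y hy
  have h2 : (m.map (eval y)).det = 0 := by
    rw [← Matrix.exists_mulVec_eq_zero_iff]
    refine ⟨v, hv, ?_⟩
    funext l
    exact hv0 l
  have h3 : eval y m.det = (m.map (eval y)).det := by
    have := RingHom.map_det (evalRingHom y) m
    simpa [RingHom.mapMatrix_apply] using this
  rw [h3, h2]

end HZ6Z
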