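import Pool.Agent.LibHZ6Z.C2
import Pool.Agent.LibHZ6Z.D1

/-!
# D2: the abstract zero estimate (assembly)
-/

namespace HZ6Z

open Finset Polynomial

theorem d2_infinite {G : ℝ[X]} (hG : G ≠ 0) (h : ℝ) :
    Set.Infinite {y : ℝ | G.eval y ≠ 0 ∧ G.eval (y + h) ≠ 0} := by
  have h1 : G * taylor h G ≠ 0 := mul_ne_zero hG (fun h0 => hG ((taylor_eq_zero h G).1 h0))
  have h2 : ({y : ℝ | (G * taylor h G).IsRoot y}).Finite := Polynomial.finite_setOfPred_isRoot h1
  have h3 := h2.infinite_compl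
  refine h3.mono ?_
  intro y hy
  simp only [Set.mem_compl_iff, Set.mem_ofPred_eq, IsRoot.def, eval_mul, taylor_eval, mul_eq_zero,
    not_or] at hy ⊢
  exact hy

theorem zc {ι : Type} {h : ℝ} (hh : 0 < h) {S : ℕ} (f : Fin S → ℝ[X]) (hf : LinearIndependent ℝ f)
    {e D0 : ℕ} (hfe : ∀ i, (f i).natDegree ≤ e) {G : ℝ[X]} (hG : G ≠ 0) (s : Finset ι)
    (A : ι → Fin S → ℝ) (ρ : ι → ℝ → ℝ) (F : ℝ → ℝ) (Fp : ℕ → ℝ[X]) (rp : ι → ℕ → ℝ[X])
    (hFp : ∀ l ≤ S, ∀ y, G.eval y ≠ 0 → (Fp l).eval y = G.eval y * F (y + l * h))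
    (hrp : ∀ M ∈ s, ∀ l < S, ∀ y, G.eval y ≠ 0 → (rp M l).eval y = G.eval y * ρ M (y + l * h))
    (hFd : ∀ l ≤ S, (Fp l).natDegree ≤ D0) (hrd : ∀ M ∈ s, ∀ l < S, (rp M l).natDegree + e ≤ D0)
    (J : Finset ℝ) (hJG : ∀ y ∈ J, G.eval y ≠ 0)
    (hJ : ∀ y ∈ J, ∃ v : Fin S → ℝ, ∀ l ≤ S, F (y + l * h) +
      ∑ M ∈ s, (∑ k ∈ range l, ρ M (y + k * h)) * (∑ i, A M i * (f i).eval (y + l * h)) +
      ∑ i, v i * (f i).eval (y + l * h) = 0)
    (hcount : D0 + S * e < J.card) :
    ∀ i, ∃ a D : ℝ[X], D ≠ 0 ∧ ∀ y, D.eval y ≠ 0 → D.eval (y + h) ≠ 0 → G.eval y ≠ 0 →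
      G.eval (y + h) ≠ 0 →
      ∑ M ∈ s, A M i * ρ M y = a.eval (y + h) / D.eval (y + h) - a.eval y / D.eval y := by
  classical
  intro i₀
  have hS : 0 < S := i₀.pos
  -- the polynomials `U M`
  set U : ι → ℝ[X] := fun M => ∑ i, C (A M i) * f i with hU
  have hUe : ∀ M, (U M).natDegree ≤ e := by
    intro M
    refine natDegree_sum_le_of_forall_le _ _ fun i _ => ?_
    exact (natDegree_C_mul_le _ _).trans (hfe i)
  have hUeval : ∀ M y, (U M).eval y = ∑ i, A M i * (f i).eval y := by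
    intro M y
    simp only [hU, eval_finsetSum, eval_mul, eval_C]
  set Φ : ℕ → ℝ[X] := fun l => Fp l + ∑ M ∈ s, (∑ k ∈ range l, rp M k) * taylor ((l : ℝ) * h) (U M)
    with hΦ
  have hΦe : ∀ l ≤ S, ∀ y, G.eval y ≠ 0 → (Φ l).eval y = G.eval y * (F (y + l * h) +
      ∑ M ∈ s, (∑ k ∈ range l, ρ M (y + k * h)) * (∑ i, A M i * (f i).eval (y + l * h))) := by
    intro l hl y hy
    simp only [hΦ, eval_add, eval_finsetSum, eval_mul, taylor_eval, hUeval]
    rw [hFp l hl y hy, mul_add, mul_sum]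
    congr 1
    refine sum_congr rfl fun M hM => ?_
    have h1 : ∑ k ∈ range l, (rp M k).eval y = G.eval y * ∑ k ∈ range l, ρ M (y + k * h) := by
      rw [mul_sum]
      refine sum_congr rfl fun k hk => ?_
      exact hrp M hM k (by have := mem_range.1 hk; omega) y hy
    rw [h1, mul_assoc]
  have hΦd : ∀ l ≤ S, (Φ l).natDegree ≤ D0 := by
    intro l hl
    have hΦl : Φ l = Fp l + ∑ M ∈ s, (∑ k ∈ range l, rp M k) * taylor ((l : ℝ) * h) (U M) := rfl
    rw [hΦl]
    refine natDegree_add_le_of_degree_le (hFd l hl) ?_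
    refine natDegree_sum_le_of_forall_le _ _ fun M hM => ?_
    refine natDegree_mul_le.trans ?_
    rw [natDegree_taylor]
    rcases Nat.eq_zero_or_pos l with rfl | hl0
    · simp only [range_zero, sum_empty, natDegree_zero, zero_add]
      exact (hUe M).trans ((Nat.le_add_left _ _).trans (hrd M hM 0 hS))
    · have h1 : (∑ k ∈ range l, rp M k).natDegree ≤ D0 - e := by
        refine natDegree_sum_le_of_forall_le _ _ fun k hk => ?_
        have := hrd M hM k (by have := mem_range.1 hk; omega)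
        omega
      have h2 := hrd M hM 0 hS
      have h3 := hUe M
      omega
  -- the matrix
  set m : Matrix (Fin (S + 1)) (Fin (S + 1)) ℝ[X] := fun l =>
    Fin.cons (α := fun _ => ℝ[X]) (Φ l) (fun i => taylor (((l : ℕ) : ℝ) * h) (f i)) with hm
  have hm0 : ∀ l, m l 0 = Φ l := fun l => by simp [hm]
  have hm1 : ∀ l (i : Fin S), m l i.succ = taylor (((l : ℕ) : ℝ) * h) (f i) := fun l i => by
    simp [hm]
  have hdet : m.det = 0 := by
    refine det_zero m (D0 := D0) (e := e) (fun l => ?_) (fun l i => ?_) J (fun y hy => ?_) hcount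
    · rw [hm0]
      exact hΦd _ (by omega)
    · rw [hm1, natDegree_taylor]
      exact hfe i
    · obtain ⟨v, hv⟩ := hJ y hy
      have hGy := hJG y hy
      refine ⟨Fin.cons 1 (fun i => G.eval y * v i), ?_, fun l => ?_⟩
      · intro h0
        have := congrFun h0 0
        simp at this
      · rw [Fin.sum_univ_succ]
        simp only [hm0, hm1, Fin.cons_zero, Fin.cons_succ, mul_one, taylor_eval]
        rw [hΦe _ (by omega) y hGy]
        have h1 := hv (l : ℕ) (by omega)
        have h2 : ∑ i, (f i).eval (y + ((l : ℕ) : ℝ) * h) * (G.eval y * v i) =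
            G.eval y * ∑ i, v i * (f i).eval (y + ((l : ℕ) : ℝ) * h) := by
          rw [mul_sum]
          exact sum_congr rfl fun i _ => by ring
        rw [h2, ← mul_add, h1, mul_zero]
  obtain ⟨c, hc0, hc⟩ := Matrix.exists_mulVec_eq_zero_iff.2 hdet
  have heq : ∀ l ≤ S, Φ l * c 0 + ∑ i : Fin S, taylor ((l : ℝ) * h) (f i) * c i.succ = 0 := by
    intro l hl
    have h1 := congrFun hc ⟨l, by omega⟩
    simp only [Matrix.mulVec, dotProduct, Pi.zero_apply] at h1
    rw [Fin.sum_univ_succ, hm0] at h1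
    simpa only [hm1] using h1
  have hc00 : c 0 ≠ 0 := by
    intro h0
    apply hc0
    have h1 : (fun i : Fin S => c i.succ) = 0 := by
      refine casorati hh S f hf _ fun l hl => ?_
      have h2 := heq l hl.le
      rw [h0, mul_zero, zero_add] at h2
      rw [← h2]
      exact sum_congr rfl fun i _ => mul_comm _ _
    funext i
    refine Fin.cases h0 (fun i => ?_) i
    exact congrFun h1 i
  set σ : ℝ[X] → ℝ[X] := fun p => taylor h p with hσ
  -- the recurrence
  have hrec : ∀ l < S, taylor h G * Φ (l + 1) = G * taylor h (Φ l) +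
      taylor h G * ∑ M ∈ s, rp M 0 * taylor (((l : ℝ) + 1) * h) (U M) := by
    intro l hl
    refine Polynomial.eq_of_infinite_eval_eq _ _ ((d2_infinite hG h).mono ?_)
    rintro y ⟨hy1, hy2⟩
    simp only [Set.mem_ofPred_eq, eval_mul, eval_add, taylor_eval, eval_finsetSum]
    rw [hΦe (l + 1) (by omega) y hy1, hΦe l hl.le (y + h) hy2]
    have e1 : y + ((l + 1 : ℕ) : ℝ) * h = y + h + l * h := by push_cast; ring
    have e2 : y + ((l : ℝ) + 1) * h = y + h + l * h := by ring
    rw [e1]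
    have e3 : ∑ M ∈ s, (rp M 0).eval y * (U M).eval (y + ((l : ℝ) + 1) * h) =
        G.eval y * ∑ M ∈ s, ρ M y * ∑ i, A M i * (f i).eval (y + h + l * h) := by
      rw [mul_sum]
      refine sum_congr rfl fun M hM => ?_
      have := hrp M hM 0 hS y hy1
      rw [Nat.cast_zero, zero_mul, add_zero] at this
      rw [this, hUeval, e2, mul_assoc]
    rw [e3]
    have e4 : ∀ M, ∑ k ∈ range (l + 1), ρ M (y + (k : ℝ) * h) =
        ∑ k ∈ range l, ρ M (y + h + (k : ℝ) * h) + ρ M y := by
      intro M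
      rw [sum_range_succ']
      congr 1
      · refine sum_congr rfl fun k _ => ?_
        congr 1
        push_cast
        ring
      · congr 1
        push_cast
        ring
    simp only [e4, add_mul, sum_add_distrib]
    ring
  -- the brackets
  have hB : (fun i : Fin S => c 0 * taylor h (c 0) * taylor h G * (∑ M ∈ s, C (A M i) * rp M 0) +
      taylor h G * taylor h (c 0) * c i.succ - G * c 0 * taylor h (c i.succ)) = 0 := by
    have hf' : LinearIndependent ℝ (fun i => taylor h (f i)) :=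
      hf.map' (taylor h) (LinearMap.ker_eq_bot.2 (taylor_injective h))
    refine casorati hh S _ hf' _ fun l hl => ?_
    have E0 := congrArg (fun p => taylor h p) (heq l hl.le)
    have E1 := heq (l + 1) (by omega)
    have R := hrec l hl
    simp only [map_add, map_zero, taylor_mul, map_sum, taylor_taylor] at E0
    have t1 : h + (l : ℝ) * h = ((l : ℝ) + 1) * h := by ring
    have t2 : (l : ℝ) * h + h = ((l : ℝ) + 1) * h := by ring
    have t3 : (((l + 1 : ℕ) : ℝ)) * h = ((l : ℝ) + 1) * h := by push_cast; ring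
    rw [t3] at E1
    simp only [t1] at E0
    simp only [taylor_taylor, t2]
    have e5 : ∑ i : Fin S, (∑ M ∈ s, C (A M i) * rp M 0) * taylor (((l : ℝ) + 1) * h) (f i) =
        ∑ M ∈ s, rp M 0 * taylor (((l : ℝ) + 1) * h) (U M) := by
      simp only [hU, map_sum, taylor_mul, taylor_C, sum_mul, mul_sum]
      rw [sum_comm]
      refine sum_congr rfl fun M _ => sum_congr rfl fun i _ => ?_
      ring
    have e6 : ∀ x : Fin S, (c 0 * taylor h (c 0) * taylor h G * (∑ M ∈ s, C (A M x) * rp M 0) +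
        taylor h G * taylor h (c 0) * c x.succ - G * c 0 * taylor h (c x.succ)) *
        taylor (((l : ℝ) + 1) * h) (f x) =
        c 0 * taylor h (c 0) * taylor h G *
          ((∑ M ∈ s, C (A M x) * rp M 0) * taylor (((l : ℝ) + 1) * h) (f x)) +
        taylor h G * taylor h (c 0) * (taylor (((l : ℝ) + 1) * h) (f x) * c x.succ) -
        G * c 0 * (taylor (((l : ℝ) + 1) * h) (f x) * taylor h (c x.succ)) := by
      intro x
      ring
    simp only [e6, sum_add_distrib, sum_sub_distrib, ← mul_sum]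
    rw [e5]
    have E0' := eq_neg_of_add_eq_zero_right E0
    have E1' := eq_neg_of_add_eq_zero_right E1
    rw [E0', E1']
    linear_combination (-(c 0) * taylor h (c 0)) * R
  -- conclusion
  refine ⟨c i₀.succ, G * c 0, mul_ne_zero hG hc00, fun y hy1 hy2 hy3 hy4 => ?_⟩
  have h1 := congrArg (fun p => Polynomial.eval y p) (congrFun hB i₀)
  simp only [Pi.zero_apply, eval_add, eval_sub, eval_mul, taylor_eval, eval_finsetSum, eval_C,
    eval_zero] at h1
  rw [eval_mul] at hy1 hy2
  have hc1 : (c 0).eval y ≠ 0 := right_ne_zero_of_mul hy1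
  have hc2 : (c 0).eval (y + h) ≠ 0 := right_ne_zero_of_mul hy2
  have h2 : ∑ M ∈ s, A M i₀ * (rp M 0).eval y = G.eval y * ∑ M ∈ s, A M i₀ * ρ M y := by
    rw [mul_sum]
    refine sum_congr rfl fun M hM => ?_
    have := hrp M hM 0 hS y hy3
    rw [Nat.cast_zero, zero_mul, add_zero] at this
    rw [this]
    ring
  rw [h2] at h1
  rw [eval_mul, eval_mul, div_sub_div _ _ (mul_ne_zero hy4 hc2) (mul_ne_zero hy3 hc1),
    eq_div_iff (mul_ne_zero (mul_ne_zero hy4 hc2) (mul_ne_zero hy3 hc1))]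
  linear_combination h1

end HZ6Z
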