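import Pool.Agent.LibHZ89.Z1b
import Pool.Agent.LibHZ89.Z2
import Pool.Agent.LibHZ89.B1

/-!
# HZ3, section 6 (zero estimate): definitions
-/

namespace HZ6Z

open Finset Polynomial HZ89

/-- the sum over the denominators up to `M j` and `M (q n - j)` in the classes `± M j` modulo `q` -/
noncomputable def psM (q n M j : ℕ) : ℝ := ps q (M * n) (M * j)

/-- `psM (j + q) = psM j - rho j` -/
noncomputable def rho (q n M : ℕ) (y : ℝ) : ℝ :=
  ∑ a ∈ range M, (1 / ((M : ℝ) * ((q : ℝ) * n - q - y) + q * (a + 1)) ^ 3 -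
    1 / ((M : ℝ) * y + q * (a + 1)) ^ 3)

/-- the denominators of the principal parts, for the multipliers `M ∈ Ms` -/
noncomputable def ZP (q n : ℕ) (Ms : Finset ℕ) (T : ℕ) : ℝ[X] :=
  ∏ M ∈ Ms, ∏ t ∈ Icc 1 T, ((C ((q : ℝ) * t) + C (M : ℝ) * X) *
    (C ((q : ℝ) * t) + C (M : ℝ) * (C ((q : ℝ) * n) - X)))

/-- the number of pairs `(M, t)` -/
def tau (Ms : Finset ℕ) (T : ℕ) : ℕ := Ms.card * T

/-- the common denominator of the shifts -/
noncomputable def GP (q n : ℕ) (Ms : Finset ℕ) (T S : ℕ) : ℝ[X] :=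
  ∏ l ∈ range (S + 1), taylor ((l : ℝ) * q) (ZP q n Ms T) ^ 3

end HZ6Z
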